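import Mathlib
import Pool.Agent.Lib.PNT.PNT

set_option autoImplicit false

namespace Pool.Agent.H78.Farbman

open Filter Topology Pool.Agent.Lib.PNT

/-- The sum of reciprocals of the primes in a reduced residue class diverges, in a
finitary form. -/
theorem exists_finset_sum_inv {q : ℕ} [NeZero q] {a : ZMod q} (ha : IsUnit a) (M : ℕ) (K : ℝ) :
    ∃ S : Finset ℕ, (∀ l ∈ S, l.Prime ∧ (l : ZMod q) = a ∧ M < l) ∧
      K ≤ ∑ l ∈ S, (1 / (l : ℝ)) := by
  classical
  set P : ℕ → Prop := fun p => (p : ZMod q) = a with hP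
  set c : ℝ := (q.totient : ℝ)⁻¹ with hc
  have hc0 : 0 < c := inv_pos.mpr (by exact_mod_cast q.totient.pos_of_neZero)
  have h1 : Tendsto (fun x : ℝ => thetaP P x / x) atTop (𝓝 c) := thetaAP_tendsto ha
  have h2 : Tendsto (fun k : ℕ => thetaP P ((2 : ℝ) ^ k) / (2 : ℝ) ^ k) atTop (𝓝 c) :=
    h1.comp (tendsto_pow_atTop_atTop_of_one_lt (by norm_num))
  have h3 : ∀ᶠ k : ℕ in atTop, thetaP P ((2 : ℝ) ^ k) / (2 : ℝ) ^ k < 5 / 4 * c :=
    h2.eventually_lt_const (by linarith)
  have h4 : ∀ᶠ k : ℕ in atTop, 7 / 8 * c < thetaP P ((2 : ℝ) ^ k) / (2 : ℝ) ^ k :=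
    h2.eventually_const_lt (by linarith)
  obtain ⟨k1, hk1⟩ := eventually_atTop.mp (h3.and h4)
  set k0 : ℕ := max k1 M with hk0
  have hM : M < 2 ^ k0 := lt_of_lt_of_le (Nat.lt_two_pow_self) (Nat.pow_le_pow_right (by norm_num) (le_max_right _ _))
  -- the dyadic estimate
  have dy : ∀ k, k0 ≤ k → c / (4 * ((k : ℝ) + 1)) ≤
      ∑ l ∈ (Finset.Ioc (2 ^ k) (2 ^ (k + 1))).filter (fun l : ℕ => l.Prime ∧ P l), (1 / (l : ℝ)) := by
    intro k hk
    have hkk : k1 ≤ k := le_trans (le_max_left _ _) hk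
    have e1 := (hk1 k hkk).1
    have e2 := (hk1 (k + 1) (by omega)).2
    have hpow : (0 : ℝ) < 2 ^ k := by positivity
    rw [div_lt_iff₀ hpow] at e1
    rw [lt_div_iff₀ (by positivity)] at e2
    have e3 : thetaP P ((2 : ℝ) ^ (k + 1)) - thetaP P ((2 : ℝ) ^ k) =
        ∑ l ∈ (Finset.Ioc (2 ^ k) (2 ^ (k + 1))).filter (fun l : ℕ => l.Prime ∧ P l), Real.log l := by
      unfold thetaP
      have f1 : ⌊(2 : ℝ) ^ k⌋₊ = 2 ^ k := by
        have : ((2 : ℝ) ^ k) = ((2 ^ k : ℕ) : ℝ) := by push_cast; rfl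
        rw [this, Nat.floor_natCast]
      have f2 : ⌊(2 : ℝ) ^ (k + 1)⌋₊ = 2 ^ (k + 1) := by
        have : ((2 : ℝ) ^ (k + 1)) = ((2 ^ (k + 1) : ℕ) : ℝ) := by push_cast; rfl
        rw [this, Nat.floor_natCast]
      rw [f1, f2]
      have hle : 2 ^ k ≤ 2 ^ (k + 1) := Nat.pow_le_pow_right (by norm_num) (by omega)
      have hun : Finset.Ioc 0 (2 ^ (k + 1)) = Finset.Ioc 0 (2 ^ k) ∪ Finset.Ioc (2 ^ k) (2 ^ (k + 1)) := by
        ext n; simp only [Finset.mem_union, Finset.mem_Ioc]; omega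
      have hdis : Disjoint (Finset.filter (fun l : ℕ => l.Prime ∧ P l) (Finset.Ioc 0 (2 ^ k)))
          (Finset.filter (fun l : ℕ => l.Prime ∧ P l) (Finset.Ioc (2 ^ k) (2 ^ (k + 1)))) := by
        rw [Finset.disjoint_left]
        intro n hn hn'
        rw [Finset.mem_filter, Finset.mem_Ioc] at hn hn'
        omega
      rw [hun, Finset.filter_union, Finset.sum_union hdis]
      ring
    have e4 : c * 2 ^ k / 2 ≤ ∑ l ∈ (Finset.Ioc (2 ^ k) (2 ^ (k + 1))).filter
        (fun l : ℕ => l.Prime ∧ P l), Real.log l := by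
      rw [← e3]
      rw [pow_succ] at e2
      rw [pow_succ]
      nlinarith
    have e5 : ∑ l ∈ (Finset.Ioc (2 ^ k) (2 ^ (k + 1))).filter
        (fun l : ℕ => l.Prime ∧ P l), Real.log l ≤
        ∑ l ∈ (Finset.Ioc (2 ^ k) (2 ^ (k + 1))).filter
        (fun l : ℕ => l.Prime ∧ P l), (1 / (l : ℝ)) * (((k : ℝ) + 1) * 2 ^ (k + 1)) := by
      apply Finset.sum_le_sum
      intro l hl
      rw [Finset.mem_filter, Finset.mem_Ioc] at hl
      have hl0 : (0 : ℝ) < l := by exact_mod_cast hl.2.1.pos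
      have hl1 : (l : ℝ) ≤ 2 ^ (k + 1) := by exact_mod_cast hl.1.2
      have g1 : Real.log l ≤ (k : ℝ) + 1 := by
        calc Real.log l ≤ Real.log (2 ^ (k + 1)) := Real.log_le_log hl0 hl1
          _ = ((k : ℝ) + 1) * Real.log 2 := by rw [Real.log_pow]; push_cast; rfl
          _ ≤ ((k : ℝ) + 1) * 1 := by
              apply mul_le_mul_of_nonneg_left _ (by positivity)
              have := Real.log_two_lt_d9
              linarith
          _ = (k : ℝ) + 1 := by ring
      have g2 : (k : ℝ) + 1 ≤ (1 / (l : ℝ)) * (((k : ℝ) + 1) * 2 ^ (k + 1)) := by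
        rw [one_div, inv_mul_eq_div, le_div_iff₀ hl0]
        apply mul_le_mul_of_nonneg_left hl1 (by positivity)
      linarith
    rw [← Finset.sum_mul] at e5
    have hk1' : (0 : ℝ) < (k : ℝ) + 1 := by positivity
    have e6 : c * 2 ^ k / 2 ≤ (∑ l ∈ (Finset.Ioc (2 ^ k) (2 ^ (k + 1))).filter
        (fun l : ℕ => l.Prime ∧ P l), (1 / (l : ℝ))) * (((k : ℝ) + 1) * 2 ^ (k + 1)) := e4.trans e5
    rw [div_le_iff₀ (by positivity)]
    rw [pow_succ] at e6
    have e7 : c * 2 ^ k / 2 ≤ ((∑ l ∈ (Finset.Ioc (2 ^ k) (2 ^ (k + 1))).filter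
        (fun l : ℕ => l.Prime ∧ P l), (1 / (l : ℝ))) * (4 * ((k : ℝ) + 1)) / 2) * 2 ^ k := by
      calc c * 2 ^ k / 2 ≤ _ := e6
        _ = _ := by ring_nf
    have e8 : c / 2 ≤ ((∑ l ∈ (Finset.Ioc (2 ^ k) (2 ^ (k + 1))).filter
        (fun l : ℕ => l.Prime ∧ P l), (1 / (l : ℝ))) * (4 * ((k : ℝ) + 1)) / 2) := by
      apply le_of_mul_le_mul_right _ hpow
      calc c / 2 * 2 ^ k = c * 2 ^ k / 2 := by ring
        _ ≤ _ := e7
    linarith
  -- sum up
  have ind : ∀ n : ℕ, c / (4 * ((k0 : ℝ) + 1)) * ∑ i ∈ Finset.range n, (1 / ((i : ℝ) + 1)) ≤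
      ∑ l ∈ (Finset.Ioc (2 ^ k0) (2 ^ (k0 + n))).filter (fun l : ℕ => l.Prime ∧ P l), (1 / (l : ℝ)) := by
    intro n
    induction n with
    | zero => simp
    | succ n ih =>
      have hle1 : 2 ^ k0 ≤ 2 ^ (k0 + n) := Nat.pow_le_pow_right (by norm_num) (by omega)
      have hle2 : 2 ^ (k0 + n) ≤ 2 ^ (k0 + n + 1) := Nat.pow_le_pow_right (by norm_num) (by omega)
      have hun : Finset.Ioc (2 ^ k0) (2 ^ (k0 + (n + 1))) =
          Finset.Ioc (2 ^ k0) (2 ^ (k0 + n)) ∪ Finset.Ioc (2 ^ (k0 + n)) (2 ^ (k0 + n + 1)) := by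
        ext m; simp only [Finset.mem_union, Finset.mem_Ioc, ← add_assoc]; omega
      have hdis : Disjoint (Finset.filter (fun l : ℕ => l.Prime ∧ P l) (Finset.Ioc (2 ^ k0) (2 ^ (k0 + n))))
          (Finset.filter (fun l : ℕ => l.Prime ∧ P l) (Finset.Ioc (2 ^ (k0 + n)) (2 ^ (k0 + n + 1)))) := by
        rw [Finset.disjoint_left]
        intro m hm hm'
        rw [Finset.mem_filter, Finset.mem_Ioc] at hm hm'
        omega
      rw [hun, Finset.filter_union, Finset.sum_union hdis, Finset.sum_range_succ, mul_add]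
      apply add_le_add ih
      refine le_trans ?_ (dy (k0 + n) (by omega))
      rw [div_mul_div_comm, mul_one]
      apply div_le_div_of_nonneg_left hc0.le (by positivity)
      push_cast
      nlinarith [show (0 : ℝ) ≤ k0 by positivity, show (0 : ℝ) ≤ n by positivity,
        mul_nonneg (show (0 : ℝ) ≤ k0 by positivity) (show (0 : ℝ) ≤ n by positivity)]
  have hT := Real.tendsto_sum_range_one_div_nat_succ_atTop
  have hcpos : 0 < c / (4 * ((k0 : ℝ) + 1)) := by positivity
  obtain ⟨n, hn⟩ := (hT.eventually_ge_atTop (K / (c / (4 * ((k0 : ℝ) + 1))))).exists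
  refine ⟨(Finset.Ioc (2 ^ k0) (2 ^ (k0 + n))).filter (fun l : ℕ => l.Prime ∧ P l), ?_, ?_⟩
  · intro l hl
    rw [Finset.mem_filter, Finset.mem_Ioc] at hl
    exact ⟨hl.2.1, hl.2.2, by omega⟩
  · refine le_trans ?_ (ind n)
    rw [div_le_iff₀ hcpos] at hn
    linarith

/-- Residues modulo `∏ l ∈ S` which avoid `0` and `u` modulo each `l ∈ S`. -/
theorem card_residues (S : Finset ℕ) (hS : ∀ l ∈ S, l.Prime) (u : ℕ) (hu : ∀ l ∈ S, ¬ l ∣ u) :
    ∃ (Q : ℕ) (_ : NeZero Q) (C : Finset (ZMod Q)), (∀ c ∈ C, IsUnit c) ∧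
      (∀ p : ℕ, p.Prime → p ∉ S → (∀ l ∈ S, ¬ p ≡ u [MOD l]) → (p : ZMod Q) ∈ C) ∧
      (C.card : ℝ) * (Q.totient : ℝ)⁻¹ = ∏ l ∈ S, (1 - 1 / ((l : ℝ) - 1)) := by
  classical
  have hpr : ∀ i : S, (i : ℕ).Prime := fun i => hS i i.2
  have hfact : ∀ i : S, Fact (i : ℕ).Prime := fun i => ⟨hpr i⟩
  have hnz : ∀ i : S, NeZero (i : ℕ) := fun i => ⟨(hpr i).ne_zero⟩
  set a : S → ℕ := fun i => (i : ℕ) with ha
  have hco : Pairwise (Function.onFun Nat.Coprime a) := by
    intro i j hij
    have : (i : ℕ) ≠ (j : ℕ) := fun h => hij (Subtype.ext h)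
    exact (Nat.coprime_primes (hpr i) (hpr j)).mpr this
  set Q : ℕ := ∏ i, a i with hQ
  have hQ0 : Q ≠ 0 := Finset.prod_ne_zero_iff.mpr fun i _ => (hpr i).ne_zero
  have : NeZero Q := ⟨hQ0⟩
  set e : ZMod Q ≃+* Π i, ZMod (a i) := ZMod.prodEquivPi a hco with he
  have hunit : ∀ c : ZMod Q, IsUnit c ↔ ∀ i, e c i ≠ 0 := by
    intro c
    rw [← MulEquiv.isUnit_map e, Pi.isUnit_iff]
    exact forall_congr' fun i => isUnit_iff_ne_zero
  set C : Finset (ZMod Q) := Finset.univ.filter
    (fun c => ∀ i, e c i ≠ 0 ∧ e c i ≠ (u : ZMod (a i))) with hC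
  refine ⟨Q, ⟨hQ0⟩, C, ?_, ?_, ?_⟩
  · intro c hc
    rw [hC, Finset.mem_filter] at hc
    exact (hunit c).mpr fun i => (hc.2 i).1
  · intro p hp hpS hpu
    rw [hC, Finset.mem_filter]
    refine ⟨Finset.mem_univ _, fun i => ?_⟩
    have e1 : e (p : ZMod Q) i = (p : ZMod (a i)) := by
      rw [map_natCast]; rfl
    rw [e1]
    constructor
    · intro h0
      rw [ZMod.natCast_eq_zero_iff] at h0
      have := (Nat.prime_dvd_prime_iff_eq (hpr i) hp).mp h0
      exact hpS (this ▸ i.2)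
    · intro h0
      rw [ZMod.natCast_eq_natCast_iff] at h0
      exact hpu i i.2 h0
  · have c1 : C.card = ∏ i : S, ((i : ℕ) - 2) := by
      have : C.card = Fintype.card (Π i : S, {x : ZMod (a i) // x ≠ 0 ∧ x ≠ (u : ZMod (a i))}) := by
        rw [← Fintype.card_coe]
        refine Fintype.card_congr ?_
        refine
          { toFun := fun c i => ⟨e c.1 i, (Finset.mem_filter.mp c.2).2 i⟩
            invFun := fun f => ⟨e.symm (fun i => (f i).1), by
              rw [hC, Finset.mem_filter]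
              refine ⟨Finset.mem_univ _, fun i => ?_⟩
              rw [e.apply_symm_apply]
              exact (f i).2⟩
            left_inv := fun c => by
              apply Subtype.ext
              exact e.symm_apply_apply c.1
            right_inv := fun f => by
              funext i
              apply Subtype.ext
              simp }
      rw [this, Fintype.card_pi]
      apply Finset.prod_congr rfl
      intro i _
      have hu0 : (u : ZMod (a i)) ≠ 0 := by
        rw [Ne, ZMod.natCast_eq_zero_iff]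
        exact hu i i.2
      have : Fintype.card {x : ZMod (a i) // x ≠ 0 ∧ x ≠ (u : ZMod (a i))} =
          ((Finset.univ.erase (0 : ZMod (a i))).erase (u : ZMod (a i))).card := by
        rw [Fintype.card_subtype]
        congr 1
        ext x
        simp [and_comm]
      rw [this, Finset.card_erase_of_mem (by simp [hu0]), Finset.card_erase_of_mem (by simp),
        Finset.card_univ, ZMod.card]
      rfl
    have c2 : Q.totient = ∏ i : S, ((i : ℕ) - 1) := by
      have : Q.totient = Fintype.card (Π i : S, {x : ZMod (a i) // x ≠ 0}) := by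
        rw [← ZMod.card_units_eq_totient]
        refine Fintype.card_congr ?_
        refine
          { toFun := fun c i => ⟨e (c : ZMod Q) i, (hunit _).mp c.isUnit i⟩
            invFun := fun f => ((hunit (e.symm (fun i => (f i).1))).mpr (fun i => by
              rw [e.apply_symm_apply]
              exact (f i).2)).unit
            left_inv := fun c => by
              apply Units.ext
              simp
            right_inv := fun f => by
              funext i
              apply Subtype.ext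
              simp }
      rw [this, Fintype.card_pi]
      apply Finset.prod_congr rfl
      intro i _
      have : Fintype.card {x : ZMod (a i) // x ≠ 0} =
          (Finset.univ.erase (0 : ZMod (a i))).card := by
        rw [Fintype.card_subtype]
        congr 1
        ext x
        simp
      rw [this, Finset.card_erase_of_mem (by simp), Finset.card_univ, ZMod.card]
    rw [c1, c2, Nat.cast_prod, Nat.cast_prod, ← Finset.prod_inv_distrib, ← Finset.prod_mul_distrib,
      ← Finset.prod_coe_sort S (fun l => (1 - 1 / ((l : ℝ) - 1)))]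
    apply Finset.prod_congr rfl
    intro i _
    have h2 : 2 ≤ (i : ℕ) := (hpr i).two_le
    rw [Nat.cast_sub h2, Nat.cast_sub (by omega)]
    push_cast
    have h3 : ((i : ℕ) : ℝ) - 1 ≠ 0 := by
      have : (2 : ℝ) ≤ ((i : ℕ) : ℝ) := by exact_mod_cast h2
      linarith
    field_simp
    ring

end Pool.Agent.H78.Farbman
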