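import Mathlib

set_option autoImplicit false

namespace Pool.Agent.H78.Farbman

open Matrix

/-- `q` is a relation number (a point of non-freeness): the matrices `[[1,q],[0,1]]` and
`[[1,0],[1,1]]` satisfy a nontrivial relation. -/
def IsRelationNumber (q : ℚ) : Prop :=
  ∀ g h : Matrix.GeneralLinearGroup (Fin 2) ℂ,
    (g : Matrix (Fin 2) (Fin 2) ℂ) = !![1, (q : ℂ); 0, 1] →
    (h : Matrix (Fin 2) (Fin 2) ℂ) = !![1, 0; 1, 1] →
    ¬ Function.Injective (FreeGroup.lift ![g, h])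

section ring

variable {R : Type*} [CommRing R]

/-- upper unipotent -/
def U (x : R) : GeneralLinearGroup (Fin 2) R where
  val := !![1, x; 0, 1]
  inv := !![1, -x; 0, 1]
  val_inv := by
    ext i j; fin_cases i <;> fin_cases j <;> simp [Matrix.mul_apply, Fin.sum_univ_two]
  inv_val := by
    ext i j; fin_cases i <;> fin_cases j <;> simp [Matrix.mul_apply, Fin.sum_univ_two]

/-- lower unipotent -/
def L (x : R) : GeneralLinearGroup (Fin 2) R where
  val := !![1, 0; x, 1]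
  inv := !![1, 0; -x, 1]
  val_inv := by
    ext i j; fin_cases i <;> fin_cases j <;> simp [Matrix.mul_apply, Fin.sum_univ_two]
  inv_val := by
    ext i j; fin_cases i <;> fin_cases j <;> simp [Matrix.mul_apply, Fin.sum_univ_two]

theorem U_val (x : R) : (U x : Matrix (Fin 2) (Fin 2) R) = !![1, x; 0, 1] := rfl
theorem L_val (x : R) : (L x : Matrix (Fin 2) (Fin 2) R) = !![1, 0; x, 1] := rfl

theorem U_mul (x y : R) : U x * U y = U (x + y) := by
  apply Units.ext
  rw [Units.val_mul, U_val, U_val, U_val]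
  ext i j; fin_cases i <;> fin_cases j <;> simp [Matrix.mul_apply, Fin.sum_univ_two, add_comm]

theorem L_mul (x y : R) : L x * L y = L (x + y) := by
  apply Units.ext
  rw [Units.val_mul, L_val, L_val, L_val]
  ext i j; fin_cases i <;> fin_cases j <;> simp [Matrix.mul_apply, Fin.sum_univ_two, add_comm]

/-- `U` as a homomorphism -/
def UHom : Multiplicative R →* GeneralLinearGroup (Fin 2) R where
  toFun x := U x.toAdd
  map_one' := by
    apply Units.ext
    rw [U_val, Units.val_one]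
    ext i j; fin_cases i <;> fin_cases j <;> simp
  map_mul' x y := by rw [U_mul]; rfl

/-- `L` as a homomorphism -/
def LHom : Multiplicative R →* GeneralLinearGroup (Fin 2) R where
  toFun x := L x.toAdd
  map_one' := by
    apply Units.ext
    rw [L_val, Units.val_one]
    ext i j; fin_cases i <;> fin_cases j <;> simp
  map_mul' x y := by rw [L_mul]; rfl

theorem U_zpow (x : R) (m : ℤ) : (U x) ^ m = U ((m : R) * x) := by
  have h := map_zpow (UHom (R := R)) (Multiplicative.ofAdd x) m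
  have h2 : (Multiplicative.ofAdd x) ^ m = Multiplicative.ofAdd ((m : R) * x) := by
    rw [← ofAdd_zsmul]; simp
  rw [h2] at h
  exact h.symm

theorem L_zpow (x : R) (m : ℤ) : (L x) ^ m = L ((m : R) * x) := by
  have h := map_zpow (LHom (R := R)) (Multiplicative.ofAdd x) m
  have h2 : (Multiplicative.ofAdd x) ^ m = Multiplicative.ofAdd ((m : R) * x) := by
    rw [← ofAdd_zsmul]; simp
  rw [h2] at h
  exact h.symm

end ring

/-- the word `b^n3 a^m2 b^n2 a^m1 b^n1` -/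
def word (n1 m1 n2 m2 n3 : ℤ) : FreeGroup (Fin 2) :=
  (FreeGroup.of 1) ^ n3 * (FreeGroup.of 0) ^ m2 * (FreeGroup.of 1) ^ n2 *
    (FreeGroup.of 0) ^ m1 * (FreeGroup.of 1) ^ n1

theorem lift_word {R : Type*} [CommRing R] (x : R) (n1 m1 n2 m2 n3 : ℤ) :
    FreeGroup.lift ![U x, L (1 : R)] (word n1 m1 n2 m2 n3) =
      L ((n3 : R)) * U ((m2 : R) * x) * L ((n2 : R)) * U ((m1 : R) * x) * L ((n1 : R)) := by
  simp [word, U_zpow, L_zpow]

theorem stepA {x y m : ℤ} (h : |x| ≤ 2 * |y|) (hm : m ≠ 0) : 2 * |y| ≤ |x + 4 * m * y| := by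
  have h1 : 1 ≤ |m| := Int.one_le_abs hm
  have h2 : |4 * m * y| = 4 * |m| * |y| := by rw [abs_mul, abs_mul]; norm_num
  have h3 : |4 * m * y| - |x| ≤ |x + 4 * m * y| := by
    have := abs_sub_abs_le_abs_sub (4 * m * y) (-x)
    rw [abs_neg] at this
    calc |4 * m * y| - |x| ≤ |4 * m * y - -x| := this
      _ = |x + 4 * m * y| := by congr 1; ring
  have h4 : 4 * |y| ≤ 4 * |m| * |y| := by nlinarith [abs_nonneg y]
  linarith

theorem stepB {x y n : ℤ} (h : 2 * |y| ≤ |x|) (hn : n ≠ 0) : |x| ≤ 2 * |y + n * x| := by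
  have h1 : 1 ≤ |n| := Int.one_le_abs hn
  have h2 : |n * x| = |n| * |x| := abs_mul _ _
  have h3 : |n * x| - |y| ≤ |y + n * x| := by
    have := abs_sub_abs_le_abs_sub (n * x) (-y)
    rw [abs_neg] at this
    calc |n * x| - |y| ≤ |n * x - -y| := this
      _ = |y + n * x| := by congr 1; ring
  have h4 : |x| ≤ |n| * |x| := by nlinarith [abs_nonneg x]
  linarith

theorem word_comm_ne {n1 m1 n2 m2 n3 : ℤ} (hn1 : n1 ≠ 0) (hm1 : m1 ≠ 0) (hn2 : n2 ≠ 0)
    (hm2 : m2 ≠ 0) (hn3 : n3 ≠ 0) :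
    word n1 m1 n2 m2 n3 * FreeGroup.of 0 ≠ FreeGroup.of 0 * word n1 m1 n2 m2 n3 := by
  intro h
  have h2 := congrArg (FreeGroup.lift ![U (4 : ℤ), L (1 : ℤ)]) h
  rw [map_mul, map_mul, lift_word] at h2
  simp only [FreeGroup.lift_apply_of, Matrix.cons_val_zero] at h2
  have h3 := congrArg (fun M : GeneralLinearGroup (Fin 2) ℤ =>
    (M : Matrix (Fin 2) (Fin 2) ℤ) 0 0) h2
  simp only [Units.val_mul, U_val, L_val, Int.cast_id] at h3
  simp [Matrix.mul_apply, Fin.sum_univ_two] at h3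
  set x1 : ℤ := 1 + 4 * m1 * n1 with hx1
  set y2 : ℤ := n1 + n2 * x1 with hy2
  set x3 : ℤ := x1 + 4 * m2 * y2 with hx3
  set y4 : ℤ := y2 + n3 * x3 with hy4
  have e1 : 2 * |n1| ≤ |x1| := stepA (by rw [abs_one]; have := Int.one_le_abs hn1; linarith) hm1
  have e2 : |x1| ≤ 2 * |y2| := stepB e1 hn2
  have e3 : 2 * |y2| ≤ |x3| := stepA e2 hm2
  have e4 : |x3| ≤ 2 * |y4| := stepB e3 hn3
  have e5 : 1 ≤ |n1| := Int.one_le_abs hn1
  have e6 : y4 = 0 := by
    rw [hy4, hx3, hy2, hx1]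
    linear_combination h3
  rw [e6] at e4
  simp at e4
  rw [e4] at e3
  have f2 : |y2| ≤ 0 := by rw [abs_zero] at e3; linarith
  have f1 : |x1| ≤ 0 := by linarith
  linarith

theorem relation_of_comm {q : ℚ} {n1 m1 n2 m2 n3 : ℤ} (hn1 : n1 ≠ 0) (hm1 : m1 ≠ 0)
    (hn2 : n2 ≠ 0) (hm2 : m2 ≠ 0) (hn3 : n3 ≠ 0)
    (hc : (L (n3 : ℂ) * U ((m2 : ℂ) * (q : ℂ)) * L (n2 : ℂ) * U ((m1 : ℂ) * (q : ℂ)) * L (n1 : ℂ)) * U (q : ℂ) =
      U (q : ℂ) * (L (n3 : ℂ) * U ((m2 : ℂ) * (q : ℂ)) * L (n2 : ℂ) * U ((m1 : ℂ) * (q : ℂ)) * L (n1 : ℂ))) :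
    IsRelationNumber q := by
  intro g h hg hh hinj
  have hg' : g = U (q : ℂ) := Units.ext hg
  have hh' : h = L (1 : ℂ) := Units.ext hh
  subst hg' hh'
  apply word_comm_ne hn1 hm1 hn2 hm2 hn3
  apply hinj
  rw [map_mul, map_mul, lift_word]
  simpa using hc

/-- The basic family: if `u v - 1 = s l` and `r = u + w (u v - 1)`, then `s / r` is a relation
number (under mild nondegeneracy conditions). -/
theorem isRelationNumber_family {s r u v w l : ℤ} (h1 : u * v - 1 = s * l)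
    (h2 : r = u + w * (u * v - 1)) (hr : r ≠ 0) (hw : w ≠ 0) (hl : l ≠ 0)
    (hv : 1 + w * v ≠ 0) : IsRelationNumber ((s : ℚ) / (r : ℚ)) := by
  have hrC : (r : ℂ) ≠ 0 := by exact_mod_cast hr
  apply relation_of_comm (n1 := r) (m1 := l * (1 + w * v)) (n2 := w) (m2 := -l)
    (n3 := -(r * (1 + w * v))) hr (mul_ne_zero hl hv) hw (neg_ne_zero.mpr hl)
    (neg_ne_zero.mpr (mul_ne_zero hr hv))
  have h1C : (u : ℂ) * v - 1 = s * l := by exact_mod_cast h1
  have h2C : (r : ℂ) = u + w * (u * v - 1) := by exact_mod_cast h2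
  push_cast
  -- the product is upper unipotent
  have key : ∃ t : ℂ, L (-((r : ℂ) * (1 + w * v))) * U (-(l : ℂ) * ((s : ℂ) / (r : ℂ))) * L (w : ℂ) *
      U ((l : ℂ) * (1 + w * v) * ((s : ℂ) / (r : ℂ))) * L (r : ℂ) = U t := by
    refine ⟨(l : ℂ) * (1 + w * v) * ((s : ℂ) / (r : ℂ)) + (-(l : ℂ) * ((s : ℂ) / (r : ℂ))) *
      (1 + w * ((l : ℂ) * (1 + w * v) * ((s : ℂ) / (r : ℂ)))), ?_⟩
    apply Units.ext
    simp only [Units.val_mul, U_val, L_val]
    have hσ : ((r : ℂ) - w * (s * l)) * v - 1 - s * l = 0 := by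
      rw [h1C] at h2C
      rw [h2C]
      linear_combination h1C
    ext i j
    fin_cases i <;> fin_cases j <;> simp [Matrix.mul_apply, Fin.sum_univ_two] <;> field_simp
    · linear_combination ((s : ℂ) * l * w) * hσ
    · ring
    · linear_combination (-(1 + (1 + (w : ℂ) * v) * l * s) * w) * hσ
    · linear_combination (-((1 + (w : ℂ) * v) * l * s) * w) * hσ
  obtain ⟨t, ht⟩ := key
  rw [ht, U_mul, U_mul, add_comm]

end Pool.Agent.H78.Farbman
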