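import Mathlib
import Pool.Agent.Lib.PNT.PNT
import Pool.Agent.H78.Farbman.Word
import Pool.Agent.H78.Farbman.Sieve

set_option autoImplicit false

namespace Pool.Agent.H78.Farbman

open Filter Topology Pool.Agent.Lib.PNT

/-- The family, natural number version. -/
theorem relation_of_modEq {s u l p : ℕ} (hl : 0 < l)
    (hdvd : u ∣ s * l + 1) (hp : p ≡ u [MOD s * l]) (hlt : u < p) :
    IsRelationNumber ((s : ℚ) / (p : ℚ)) := by
  obtain ⟨v, hv⟩ := hdvd
  have hv0 : 0 < v := by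
    rcases Nat.eq_zero_or_pos v with h | h
    · subst h; simp at hv
    · exact h
  obtain ⟨w, hw⟩ : s * l ∣ p - u := (Nat.modEq_iff_dvd' hlt.le).mp hp.symm
  have hw0 : 0 < w := by
    rcases Nat.eq_zero_or_pos w with h | h
    · subst h; simp at hw; omega
    · exact h
  have hpu : p = u + w * (s * l) := by rw [mul_comm w, ← hw]; omega
  have key := isRelationNumber_family (s := (s : ℤ)) (r := (p : ℤ)) (u := (u : ℤ)) (v := (v : ℤ))
    (w := (w : ℤ)) (l := (l : ℤ)) (by
      have : ((s * l + 1 : ℕ) : ℤ) = ((u * v : ℕ) : ℤ) := by rw [hv]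
      push_cast at this
      linarith) (by
      have h1 : ((s * l + 1 : ℕ) : ℤ) = ((u * v : ℕ) : ℤ) := by rw [hv]
      have h2 : ((p : ℕ) : ℤ) = ((u + w * (s * l) : ℕ) : ℤ) := by rw [← hpu]
      push_cast at h1 h2
      rw [h2]
      linear_combination (w : ℤ) * h1)
    (by omega) (by omega) (by omega) (by positivity)
  simpa using key

open Classical in
/-- number of bad primes up to `N` -/
noncomputable def bad (s N : ℕ) : ℕ :=
  ((Finset.Ioc 0 N).filter (fun p : ℕ => p.Prime ∧ ¬ IsRelationNumber ((s : ℚ) / (p : ℚ)))).card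

/-- sieve data for one residue class -/
theorem class_bound {s : ℕ} (hs : 0 < s) {u : ℕ} (hu1 : 1 ≤ u) (hu2 : u ≤ s) (hus : Nat.Coprime u s)
    {ε : ℝ} (hε : 0 < ε) :
    ∃ (B : ℕ) (Q : ℕ) (_ : NeZero Q) (C : Finset (ZMod Q)), (∀ c ∈ C, IsUnit c) ∧
      (C.card : ℝ) * (Q.totient : ℝ)⁻¹ ≤ ε ∧
      ∀ p : ℕ, p.Prime → B < p → p ≡ u [MOD s] →
        ¬ IsRelationNumber ((s : ℚ) / (p : ℚ)) → (p : ZMod Q) ∈ C := by
  have : NeZero u := ⟨by omega⟩
  have hsu : IsUnit ((s : ℕ) : ZMod u) := (ZMod.isUnit_iff_coprime s u).mpr hus.symm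
  obtain ⟨b, hb⟩ := hsu
  set a : ZMod u := -(↑(b⁻¹) : ZMod u) with ha
  have hau : IsUnit a := (Units.isUnit (b⁻¹)).neg
  have hsa : (s : ZMod u) * a = -1 := by
    rw [ha, mul_neg, ← hb, Units.mul_inv]
  obtain ⟨S, hS1, hS2⟩ := exists_finset_sum_inv hau s (-Real.log ε)
  have hSp : ∀ l ∈ S, l.Prime := fun l hl => (hS1 l hl).1
  have hSu : ∀ l ∈ S, ¬ l ∣ u := by
    intro l hl hdvd
    have h1 := Nat.le_of_dvd (by omega) hdvd
    have h2 := (hS1 l hl).2.2
    omega
  obtain ⟨Q, hQ, C, hC1, hC2, hC3⟩ := card_residues S hSp u hSu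
  refine ⟨u + ∑ l ∈ S, l, Q, hQ, C, hC1, ?_, ?_⟩
  · rw [hC3]
    calc ∏ l ∈ S, (1 - 1 / ((l : ℝ) - 1)) ≤ ∏ l ∈ S, Real.exp (-(1 / (l : ℝ))) := by
          apply Finset.prod_le_prod
          · intro l hl
            have h2 : (2 : ℝ) ≤ l := by exact_mod_cast (hSp l hl).two_le
            rw [sub_nonneg, div_le_one (by linarith)]
            linarith
          · intro l hl
            have h2 : (2 : ℝ) ≤ l := by exact_mod_cast (hSp l hl).two_le
            have h3 : 1 / (l : ℝ) ≤ 1 / ((l : ℝ) - 1) :=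
              one_div_le_one_div_of_le (by linarith) (by linarith)
            have h4 := Real.add_one_le_exp (-(1 / (l : ℝ)))
            linarith
      _ = Real.exp (-∑ l ∈ S, (1 / (l : ℝ))) := by
          rw [← Real.exp_sum, Finset.sum_neg_distrib]
      _ ≤ Real.exp (Real.log ε) := Real.exp_le_exp.mpr (by linarith)
      _ = ε := Real.exp_log hε
  · intro p hp hBp hpu hbad
    apply hC2 p hp
    · intro hpS
      have : p ≤ ∑ l ∈ S, l := Finset.single_le_sum (f := fun l => l) (fun _ _ => Nat.zero_le _) hpS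
      omega
    · intro l hl hpl
      apply hbad
      have hlp := hSp l hl
      have hls := (hS1 l hl).2.2
      have hco : Nat.Coprime s l := by
        rw [Nat.coprime_comm]
        exact (Nat.Prime.coprime_iff_not_dvd hlp).mpr fun h => by
          have := Nat.le_of_dvd hs h
          omega
      have hmod : p ≡ u [MOD s * l] := (Nat.modEq_and_modEq_iff_modEq_mul hco).mp ⟨hpu, hpl⟩
      refine relation_of_modEq hlp.pos ?_ hmod (by omega)
      rw [← ZMod.natCast_eq_zero_iff]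
      push_cast
      rw [(hS1 l hl).2.1, hsa]
      ring

theorem bad_tendsto {s : ℕ} (hs : 0 < s) :
    Tendsto (fun N : ℕ => (bad s N : ℝ) * Real.log N / N) atTop (𝓝 0) := by
  classical
  rw [Metric.tendsto_atTop]
  intro ε hε
  -- choose sieve data for each class
  set U : Finset ℕ := (Finset.Icc 1 s).filter (fun u => Nat.Coprime u s) with hU
  have hdata : ∀ u : ℕ, ∃ (B : ℕ) (Q : ℕ) (_ : NeZero Q) (C : Finset (ZMod Q)), (∀ c ∈ C, IsUnit c) ∧
      (C.card : ℝ) * (Q.totient : ℝ)⁻¹ ≤ ε / (4 * s) ∧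
      (u ∈ U → ∀ p : ℕ, p.Prime → B < p → p ≡ u [MOD s] →
        ¬ IsRelationNumber ((s : ℚ) / (p : ℚ)) → (p : ZMod Q) ∈ C) := by
    intro u
    by_cases hu : u ∈ U
    · rw [hU, Finset.mem_filter, Finset.mem_Icc] at hu
      obtain ⟨B, Q, hQ, C, h1, h2, h3⟩ := class_bound hs hu.1.1 hu.1.2 hu.2
        (show 0 < ε / (4 * s) by positivity)
      exact ⟨B, Q, hQ, C, h1, h2, fun _ => h3⟩
    · refine ⟨0, 1, inferInstance, ∅, by simp, ?_, fun h => absurd h hu⟩
      simp
      positivity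
  choose B Q hQ C hC1 hC2 hC3 using hdata
  -- counting
  have hcount : ∀ N : ℕ, (bad s N : ℝ) ≤ (s + ∑ u ∈ U, B u : ℕ) +
      ∑ u ∈ U, ∑ c ∈ C u, (piP (fun p => (p : ZMod (Q u)) = c) (N : ℝ) : ℝ) := by
    intro N
    have hsub : (Finset.Ioc 0 N).filter (fun p : ℕ => p.Prime ∧ ¬ IsRelationNumber ((s : ℚ) / (p : ℚ))) ⊆
        Finset.Ioc 0 (s + ∑ u ∈ U, B u) ∪ U.biUnion (fun u => (C u).biUnion (fun c =>
          (Finset.Ioc 0 ⌊(N : ℝ)⌋₊).filter (fun p : ℕ => p.Prime ∧ (p : ZMod (Q u)) = c))) := by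
      intro p hp
      rw [Finset.mem_filter, Finset.mem_Ioc] at hp
      obtain ⟨⟨hp0, hpN⟩, hpp, hpb⟩ := hp
      rw [Finset.mem_union]
      by_cases hsmall : p ≤ s + ∑ u ∈ U, B u
      · left
        rw [Finset.mem_Ioc]
        exact ⟨hp0, hsmall⟩
      · right
        push Not at hsmall
        -- the class of p
        have hps : s < p := by omega
        have hcop : Nat.Coprime p s := by
          rw [Nat.Prime.coprime_iff_not_dvd hpp]
          intro h
          have := Nat.le_of_dvd hs h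
          omega
        obtain ⟨u, hu, hpu⟩ : ∃ u ∈ U, p ≡ u [MOD s] := by
          rcases Nat.eq_zero_or_pos (p % s) with h0 | h0
          · have hdvd : s ∣ p := Nat.dvd_of_mod_eq_zero h0
            have hs1 : s = 1 := by
              have := Nat.eq_one_of_dvd_coprimes hcop hdvd dvd_rfl
              exact this
            refine ⟨1, ?_, ?_⟩
            · rw [hU, Finset.mem_filter, Finset.mem_Icc]
              exact ⟨⟨le_rfl, hs⟩, Nat.coprime_one_left s⟩
            · rw [hs1]; exact Nat.modEq_one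
          · refine ⟨p % s, ?_, (Nat.mod_modEq p s).symm⟩
            rw [hU, Finset.mem_filter, Finset.mem_Icc]
            refine ⟨⟨h0, (Nat.mod_lt p hs).le⟩, ?_⟩
            rw [Nat.coprime_iff_gcd_eq_one, ← Nat.gcd_rec, Nat.gcd_comm]
            exact hcop
        rw [Finset.mem_biUnion]
        refine ⟨u, hu, ?_⟩
        rw [Finset.mem_biUnion]
        have hBu : B u < p := by
          have : B u ≤ ∑ u ∈ U, B u := Finset.single_le_sum (fun _ _ => Nat.zero_le _) hu
          omega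
        refine ⟨(p : ZMod (Q u)), hC3 u hu p hpp hBu hpu hpb, ?_⟩
        rw [Finset.mem_filter, Finset.mem_Ioc, Nat.floor_natCast]
        exact ⟨⟨hp0, hpN⟩, hpp, rfl⟩
    have h1 := Finset.card_le_card hsub
    have h2 := h1.trans (Finset.card_union_le _ _)
    have h3 : (U.biUnion (fun u => (C u).biUnion (fun c =>
          (Finset.Ioc 0 ⌊(N : ℝ)⌋₊).filter (fun p : ℕ => p.Prime ∧ (p : ZMod (Q u)) = c)))).card ≤
        ∑ u ∈ U, ∑ c ∈ C u, piP (fun p => (p : ZMod (Q u)) = c) (N : ℝ) := by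
      refine Finset.card_biUnion_le.trans (Finset.sum_le_sum fun u _ => ?_)
      exact Finset.card_biUnion_le
    rw [Nat.card_Ioc] at h2
    have h4 : bad s N ≤ (s + ∑ u ∈ U, B u) + ∑ u ∈ U, ∑ c ∈ C u, piP (fun p => (p : ZMod (Q u)) = c) (N : ℝ) := by
      unfold bad
      omega
    exact_mod_cast h4
  -- limit of the upper bound
  have hlogN : Tendsto (fun N : ℕ => Real.log (N : ℝ) / (N : ℝ)) atTop (𝓝 0) := by
    have h := Real.isLittleO_log_id_atTop.tendsto_div_nhds_zero
    exact h.comp tendsto_natCast_atTop_atTop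
  have hlim : Tendsto (fun N : ℕ => ((s + ∑ u ∈ U, B u : ℕ) : ℝ) * (Real.log (N : ℝ) / (N : ℝ)) +
      ∑ u ∈ U, ∑ c ∈ C u, ((piP (fun p => (p : ZMod (Q u)) = c) (N : ℝ) : ℝ) * Real.log N / N)) atTop
      (𝓝 (((s + ∑ u ∈ U, B u : ℕ) : ℝ) * 0 + ∑ u ∈ U, ∑ c ∈ C u, ((Q u).totient : ℝ)⁻¹)) := by
    refine (hlogN.const_mul _).add (tendsto_finsetSum _ fun u _ => tendsto_finsetSum _ fun c hc => ?_)
    have := hQ u
    exact (piAP_tendsto (hC1 u c hc)).comp tendsto_natCast_atTop_atTop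
  have hval : ((s + ∑ u ∈ U, B u : ℕ) : ℝ) * 0 + ∑ u ∈ U, ∑ c ∈ C u, ((Q u).totient : ℝ)⁻¹ < ε / 2 := by
    rw [mul_zero, zero_add]
    have h1 : ∑ u ∈ U, ∑ c ∈ C u, ((Q u).totient : ℝ)⁻¹ ≤ ∑ u ∈ U, ε / (4 * s) := by
      apply Finset.sum_le_sum
      intro u _
      rw [Finset.sum_const, nsmul_eq_mul]
      exact hC2 u
    have h2 : U.card ≤ s := by
      calc U.card ≤ (Finset.Icc 1 s).card := Finset.card_filter_le _ _
        _ = s := by simp
    rw [Finset.sum_const, nsmul_eq_mul] at h1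
    have h3 : (U.card : ℝ) * (ε / (4 * s)) ≤ s * (ε / (4 * s)) := by
      apply mul_le_mul_of_nonneg_right (by exact_mod_cast h2) (by positivity)
    have h4 : (s : ℝ) * (ε / (4 * s)) = ε / 4 := by
      have : (s : ℝ) ≠ 0 := by positivity
      field_simp
    linarith
  obtain ⟨N0, hN0⟩ := eventually_atTop.mp (hlim.eventually_lt_const hval)
  refine ⟨max N0 1, fun N hN => ?_⟩
  have hN1 : 1 ≤ N := le_trans (le_max_right _ _) hN
  have hNr : (1 : ℝ) ≤ N := by exact_mod_cast hN1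
  have hlog : 0 ≤ Real.log (N : ℝ) := Real.log_nonneg hNr
  have h5 := hN0 N (le_trans (le_max_left _ _) hN)
  rw [Real.dist_eq, sub_zero, abs_of_nonneg (by positivity)]
  have h6 : (bad s N : ℝ) * Real.log N / N ≤
      ((s + ∑ u ∈ U, B u : ℕ) : ℝ) * (Real.log (N : ℝ) / (N : ℝ)) +
      ∑ u ∈ U, ∑ c ∈ C u, ((piP (fun p => (p : ZMod (Q u)) = c) (N : ℝ) : ℝ) * Real.log N / N) := by
    have h7 := mul_le_mul_of_nonneg_right (hcount N) (show (0 : ℝ) ≤ Real.log N / N by positivity)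
    rw [add_mul, Finset.sum_mul] at h7
    calc (bad s N : ℝ) * Real.log N / N = (bad s N : ℝ) * (Real.log N / N) := by ring
      _ ≤ _ := h7
      _ = _ := by
        congr 1
        apply Finset.sum_congr rfl
        intro u _
        rw [Finset.sum_mul]
        apply Finset.sum_congr rfl
        intro c _
        ring
  linarith

open Classical in
theorem good_tendsto {s : ℕ} (hs : 0 < s) :
    Tendsto (fun N : ℕ =>
      (((Finset.Icc 1 N).filter
        (fun p : ℕ => p.Prime ∧ IsRelationNumber ((s : ℚ) / (p : ℚ)))).card : ℝ) /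
      (((Finset.Icc 1 N).filter (fun p : ℕ => p.Prime)).card : ℝ)) atTop (𝓝 1) := by
  have h1 := bad_tendsto hs
  have h2 := primeCounting_nat_tendsto
  have h3 := h1.div h2 one_ne_zero
  rw [zero_div] at h3
  have h4 : Tendsto (fun N : ℕ => (bad s N : ℝ) / (Nat.primeCounting N : ℝ)) atTop (𝓝 0) := by
    refine h3.congr' ?_
    filter_upwards [eventually_ge_atTop 2] with N hN
    have hN2 : (2 : ℝ) ≤ N := by exact_mod_cast hN
    have hlog : 0 < Real.log (N : ℝ) := Real.log_pos (by linarith)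
    simp only [Pi.div_apply]
    field_simp
  have h5 : Tendsto (fun N : ℕ => 1 - (bad s N : ℝ) / (Nat.primeCounting N : ℝ)) atTop (𝓝 (1 - 0)) :=
    tendsto_const_nhds.sub h4
  rw [sub_zero] at h5
  refine h5.congr' ?_
  filter_upwards [eventually_ge_atTop 2] with N hN
  have hpc : Nat.primeCounting N = ((Finset.Icc 1 N).filter (fun p : ℕ => p.Prime)).card := by
    rw [Nat.primeCounting, Nat.primeCounting', Nat.count_eq_card_filter_range]
    congr 1
    ext p
    rw [Finset.mem_filter, Finset.mem_filter, Finset.mem_Icc, Finset.mem_range]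
    constructor
    · rintro ⟨h1, h2⟩; exact ⟨⟨h2.one_le, by omega⟩, h2⟩
    · rintro ⟨h1, h2⟩; exact ⟨by omega, h2⟩
  have hsplit : ((Finset.Icc 1 N).filter (fun p : ℕ => p.Prime)).card =
      ((Finset.Icc 1 N).filter
        (fun p : ℕ => p.Prime ∧ IsRelationNumber ((s : ℚ) / (p : ℚ)))).card + bad s N := by
    unfold bad
    rw [show Finset.Ioc 0 N = Finset.Icc 1 N from rfl]
    rw [← Finset.card_filter_add_card_filter_not (s := (Finset.Icc 1 N).filter (fun p : ℕ => p.Prime))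
      (fun p : ℕ => IsRelationNumber ((s : ℚ) / (p : ℚ))), Finset.filter_filter,
      Finset.filter_filter]
  have hpos : (0 : ℝ) < ((Finset.Icc 1 N).filter (fun p : ℕ => p.Prime)).card := by
    have : 2 ∈ (Finset.Icc 1 N).filter (fun p : ℕ => p.Prime) := by
      rw [Finset.mem_filter, Finset.mem_Icc]
      exact ⟨⟨by norm_num, hN⟩, Nat.prime_two⟩
    exact_mod_cast Finset.card_pos.mpr ⟨2, this⟩
  rw [hpc]
  have h6 : (((Finset.Icc 1 N).filter (fun p : ℕ => p.Prime)).card : ℝ) =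
      (((Finset.Icc 1 N).filter
        (fun p : ℕ => p.Prime ∧ IsRelationNumber ((s : ℚ) / (p : ℚ)))).card : ℝ) + (bad s N : ℝ) := by
    exact_mod_cast hsplit
  rw [eq_comm, div_eq_iff hpos.ne', sub_mul, div_mul_cancel₀ _ hpos.ne']
  linarith

end Pool.Agent.H78.Farbman
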