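import Mathlib
import Pool.Agent.H78.Farbman.Main

set_option autoImplicit false

namespace Pool.Agent.H78.Farbman

open Filter Topology

theorem isRelationNumber_zero : IsRelationNumber 0 := by
  intro g h hg _ hinj
  have hg1 : g = 1 := by
    apply Units.ext
    rw [hg, Units.val_one]
    ext i j; fin_cases i <;> fin_cases j <;> simp
  have : FreeGroup.lift ![g, h] (FreeGroup.of (0 : Fin 2)) = FreeGroup.lift ![g, h] 1 := by
    simp [hg1]
  have h2 := hinj this
  exact FreeGroup.of_ne_one _ h2

theorem IsRelationNumber.neg {q : ℚ} (hq : IsRelationNumber q) : IsRelationNumber (-q) := by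
  intro g h hg hh hinj
  refine hq g⁻¹ h ?_ hh ?_
  · have hg' : g = U ((-q : ℚ) : ℂ) := Units.ext hg
    rw [hg']
    change !![1, -(((-q : ℚ) : ℂ)); 0, 1] = _
    push_cast
    rw [neg_neg]
  · set σ : FreeGroup (Fin 2) →* FreeGroup (Fin 2) :=
      FreeGroup.lift ![(FreeGroup.of 0)⁻¹, FreeGroup.of 1] with hσ
    have h1 : σ.comp σ = MonoidHom.id _ := by
      apply FreeGroup.ext_hom
      intro i
      fin_cases i <;> simp [hσ]
    have h2 : Function.Injective σ := by
      intro x y hxy
      have := congrArg σ hxy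
      have e1 : σ (σ x) = x := by
        change (σ.comp σ) x = x
        rw [h1]; rfl
      have e2 : σ (σ y) = y := by
        change (σ.comp σ) y = y
        rw [h1]; rfl
      rw [e1, e2] at this
      exact this
    have h3 : FreeGroup.lift ![g⁻¹, h] = (FreeGroup.lift ![g, h]).comp σ := by
      apply FreeGroup.ext_hom
      intro i
      fin_cases i <;> simp [hσ]
    rw [h3]
    exact hinj.comp h2

open Classical in
/-- For almost all primes `p`, every rational number `s / p` with `|s| ≤ S p` is a relation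
number, for some function `S` tending to infinity. -/
theorem uniform : ∃ S : ℕ → ℕ, Tendsto S atTop atTop ∧
    Tendsto (fun N : ℕ =>
      (((Finset.Icc 1 N).filter (fun p : ℕ => p.Prime ∧
        ∀ s : ℤ, |s| ≤ (S p : ℤ) → IsRelationNumber ((s : ℚ) / (p : ℚ)))).card : ℝ) /
      (((Finset.Icc 1 N).filter (fun p : ℕ => p.Prime)).card : ℝ)) atTop (𝓝 1) := by
  set pr : ℕ → ℝ := fun N => (((Finset.Icc 1 N).filter (fun p : ℕ => p.Prime)).card : ℝ) with hpr
  -- bad counts are negligible
  have hb : ∀ s : ℕ, 0 < s → Tendsto (fun N : ℕ => (bad s N : ℝ) / pr N) atTop (𝓝 0) := by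
    intro s hs
    have h := good_tendsto hs
    have h5 : Tendsto (fun N : ℕ => 1 -
      (((Finset.Icc 1 N).filter
        (fun p : ℕ => p.Prime ∧ IsRelationNumber ((s : ℚ) / (p : ℚ)))).card : ℝ) /
      (((Finset.Icc 1 N).filter (fun p : ℕ => p.Prime)).card : ℝ)) atTop (𝓝 (1 - 1)) :=
      tendsto_const_nhds.sub h
    rw [sub_self] at h5
    refine h5.congr' ?_
    filter_upwards [eventually_ge_atTop 2] with N hN
    have hsplit : ((Finset.Icc 1 N).filter (fun p : ℕ => p.Prime)).card =
      ((Finset.Icc 1 N).filter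
        (fun p : ℕ => p.Prime ∧ IsRelationNumber ((s : ℚ) / (p : ℚ)))).card + bad s N := by
      unfold bad
      rw [show Finset.Ioc 0 N = Finset.Icc 1 N from rfl]
      rw [← Finset.card_filter_add_card_filter_not (s := (Finset.Icc 1 N).filter (fun p : ℕ => p.Prime))
        (fun p : ℕ => IsRelationNumber ((s : ℚ) / (p : ℚ))), Finset.filter_filter,
        Finset.filter_filter]
    have hpos : (0 : ℝ) < ((Finset.Icc 1 N).filter (fun p : ℕ => p.Prime)).card := by
      have : 2 ∈ (Finset.Icc 1 N).filter (fun p : ℕ => p.Prime) := by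
        rw [Finset.mem_filter, Finset.mem_Icc]
        exact ⟨⟨by norm_num, hN⟩, Nat.prime_two⟩
      exact_mod_cast Finset.card_pos.mpr ⟨2, this⟩
    have h6 : (((Finset.Icc 1 N).filter (fun p : ℕ => p.Prime)).card : ℝ) =
      (((Finset.Icc 1 N).filter
        (fun p : ℕ => p.Prime ∧ IsRelationNumber ((s : ℚ) / (p : ℚ)))).card : ℝ) + (bad s N : ℝ) := by
      exact_mod_cast hsplit
    rw [eq_div_iff hpos.ne', sub_mul, div_mul_cancel₀ _ hpos.ne']
    linarith
  -- partial sums
  have hF : ∀ k : ℕ, Tendsto (fun N : ℕ => ∑ s ∈ Finset.Icc 1 k, (bad s N : ℝ) / pr N) atTop (𝓝 0) := by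
    intro k
    have h : Tendsto (fun N : ℕ => ∑ s ∈ Finset.Icc 1 k, (bad s N : ℝ) / pr N) atTop
        (𝓝 (∑ s ∈ Finset.Icc 1 k, (0 : ℝ))) :=
      tendsto_finsetSum _ fun s hs => hb s (Finset.mem_Icc.mp hs).1
    simpa using h
  obtain ⟨φ, hφ, hφ2⟩ := extraction_forall_of_eventually
    (P := fun k N0 => ∀ N ≥ N0, ∑ s ∈ Finset.Icc 1 k, (bad s N : ℝ) / pr N < 1 / ((k : ℝ) + 1)) (by
      intro k
      obtain ⟨N1, hN1⟩ := eventually_atTop.mp
        ((hF k).eventually_lt_const (show (0 : ℝ) < 1 / ((k : ℝ) + 1) by positivity))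
      filter_upwards [eventually_ge_atTop N1] with N0 hN0 N hN
      exact hN1 N (le_trans hN0 hN))
  set S : ℕ → ℕ := fun N => Nat.findGreatest (fun k => φ k ≤ N) N with hS
  have hSmono : Monotone S := by
    intro a b hab
    rw [hS]
    simp only
    rcases Nat.eq_zero_or_pos (Nat.findGreatest (fun k => φ k ≤ a) a) with h0 | h0
    · rw [h0]; exact Nat.zero_le _
    · apply Nat.le_findGreatest
      · exact (Nat.findGreatest_le a).trans hab
      · have : φ (Nat.findGreatest (fun k => φ k ≤ a) a) ≤ a :=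
          Nat.findGreatest_of_ne_zero (P := fun k => φ k ≤ a) rfl h0.ne'
        exact this.trans hab
  have hStend : Tendsto S atTop atTop := by
    rw [tendsto_atTop]
    intro k
    filter_upwards [eventually_ge_atTop (φ k)] with N hN
    exact Nat.le_findGreatest ((hφ.id_le k).trans hN) hN
  refine ⟨S, hStend, ?_⟩
  -- the exceptional set
  have hexc : ∀ N : ℕ, φ 0 ≤ N → 2 ≤ N →
      1 - 1 / ((S N : ℝ) + 1) ≤ (((Finset.Icc 1 N).filter (fun p : ℕ => p.Prime ∧
        ∀ s : ℤ, |s| ≤ (S p : ℤ) → IsRelationNumber ((s : ℚ) / (p : ℚ)))).card : ℝ) / pr N := by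
    intro N hN0 hN2
    have hφS : φ (S N) ≤ N := by
      rcases Nat.eq_zero_or_pos (S N) with h0 | h0
      · rw [h0]; exact hN0
      · exact Nat.findGreatest_of_ne_zero (P := fun k => φ k ≤ N) rfl h0.ne'
    have h1 := hφ2 (S N) N hφS
    have hpos : (0 : ℝ) < pr N := by
      have : 2 ∈ (Finset.Icc 1 N).filter (fun p : ℕ => p.Prime) := by
        rw [Finset.mem_filter, Finset.mem_Icc]
        exact ⟨⟨by norm_num, hN2⟩, Nat.prime_two⟩
      have h0 : 0 < ((Finset.Icc 1 N).filter (fun p : ℕ => p.Prime)).card := Finset.card_pos.mpr ⟨2, this⟩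
      exact Nat.cast_pos.mpr h0
    have hsub : (Finset.Icc 1 N).filter (fun p : ℕ => p.Prime) ⊆
        (Finset.Icc 1 N).filter (fun p : ℕ => p.Prime ∧
          ∀ s : ℤ, |s| ≤ (S p : ℤ) → IsRelationNumber ((s : ℚ) / (p : ℚ))) ∪
        (Finset.Icc 1 (S N)).biUnion (fun s => (Finset.Ioc 0 N).filter
          (fun p : ℕ => p.Prime ∧ ¬ IsRelationNumber ((s : ℚ) / (p : ℚ)))) := by
      intro p hp
      rw [Finset.mem_filter, Finset.mem_Icc] at hp
      rw [Finset.mem_union]
      by_cases hgood : ∀ s : ℤ, |s| ≤ (S p : ℤ) → IsRelationNumber ((s : ℚ) / (p : ℚ))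
      · left
        rw [Finset.mem_filter, Finset.mem_Icc]
        exact ⟨hp.1, hp.2, hgood⟩
      · right
        push Not at hgood
        obtain ⟨s, hs1, hs2⟩ := hgood
        have hs0 : s ≠ 0 := by
          rintro rfl
          apply hs2
          simpa using isRelationNumber_zero
        have hbad : ¬ IsRelationNumber (((s.natAbs : ℕ) : ℚ) / (p : ℚ)) := by
          intro h
          apply hs2
          rcases Int.natAbs_eq s with h3 | h3
          · rw [h3]
            simpa using h
          · rw [h3]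
            have := h.neg
            push_cast
            rw [neg_div]
            simpa using this
        rw [Finset.mem_biUnion]
        refine ⟨s.natAbs, ?_, ?_⟩
        · rw [Finset.mem_Icc]
          have h4 : s.natAbs ≤ S p := by
            have : ((s.natAbs : ℕ) : ℤ) = |s| := Int.natCast_natAbs s
            omega
          have h5 : S p ≤ S N := hSmono hp.1.2
          have h6 : 1 ≤ s.natAbs := Int.natAbs_pos.mpr hs0
          omega
        · rw [Finset.mem_filter, Finset.mem_Ioc]
          exact ⟨⟨by omega, hp.1.2⟩, hp.2, hbad⟩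
    have h2 := (Finset.card_le_card hsub).trans (Finset.card_union_le _ _)
    have h3 : ((Finset.Icc 1 (S N)).biUnion (fun s => (Finset.Ioc 0 N).filter
          (fun p : ℕ => p.Prime ∧ ¬ IsRelationNumber ((s : ℚ) / (p : ℚ))))).card ≤
        ∑ s ∈ Finset.Icc 1 (S N), bad s N := Finset.card_biUnion_le
    have h4 : pr N ≤ (((Finset.Icc 1 N).filter (fun p : ℕ => p.Prime ∧
        ∀ s : ℤ, |s| ≤ (S p : ℤ) → IsRelationNumber ((s : ℚ) / (p : ℚ)))).card : ℝ) +
        ∑ s ∈ Finset.Icc 1 (S N), (bad s N : ℝ) := by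
      have h5 := h2.trans (Nat.add_le_add_left h3 _)
      have h6 := (Nat.cast_le (α := ℝ)).mpr h5
      rw [Nat.cast_add, Nat.cast_sum] at h6
      exact h6
    rw [← Finset.sum_div, div_lt_iff₀ hpos] at h1
    rw [le_div_iff₀ hpos]
    linarith
  -- squeeze
  have hlow : Tendsto (fun N : ℕ => 1 - 1 / ((S N : ℝ) + 1)) atTop (𝓝 (1 - 0)) := by
    apply tendsto_const_nhds.sub
    exact (tendsto_one_div_add_atTop_nhds_zero_nat (𝕜 := ℝ)).comp hStend
  rw [sub_zero] at hlow
  refine tendsto_of_tendsto_of_tendsto_of_le_of_le' hlow tendsto_const_nhds ?_ ?_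
  · filter_upwards [eventually_ge_atTop (φ 0), eventually_ge_atTop 2] with N h1 h2
    exact hexc N h1 h2
  · filter_upwards with N
    apply div_le_one_of_le₀ _ (by positivity)
    have : ((Finset.Icc 1 N).filter (fun p : ℕ => p.Prime ∧
        ∀ s : ℤ, |s| ≤ (S p : ℤ) → IsRelationNumber ((s : ℚ) / (p : ℚ)))).card ≤
        ((Finset.Icc 1 N).filter (fun p : ℕ => p.Prime)).card := by
      apply Finset.card_le_card
      intro p hp
      rw [Finset.mem_filter] at hp ⊢
      exact ⟨hp.1, hp.2.1⟩
    exact_mod_cast this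

end Pool.Agent.H78.Farbman
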